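import Pool.Agent.Helper25.GG.Defs2

/-! # GG-1: the frame matroid of a gain graph exists -/

namespace Pool.Agent.Helper25.GG

variable {V H : Type} [Group H]

/-- The two inequalities in the definition of independence. -/
def frame_Good (G : GGraph V H) (X : Set ℕ) : Prop :=
  X.ncard ≤ (G.vs X).ncard ∧ (G.Bal X → X.ncard + 1 ≤ (G.vs X).ncard)

theorem frame_ind_iff (G : GGraph V H) (I : Set ℕ) :
    G.Ind I ↔ ∀ X ⊆ I, X.Nonempty → frame_Good G X := Iff.rfl

/-- A minimal violating set. -/
def frame_Circ (G : GGraph V H) (C : Set ℕ) : Prop :=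
  C.Finite ∧ C.Nonempty ∧ ¬ frame_Good G C ∧
    ∀ X ⊆ C, X ≠ C → X.Nonempty → frame_Good G X

theorem frame_exists_circ (G : GGraph V H) {X : Set ℕ} (hX : X.Finite) (h : ¬ G.Ind X) :
    ∃ C ⊆ X, frame_Circ G C := by
  classical
  have hne : {C | C ⊆ X ∧ C.Nonempty ∧ ¬ frame_Good G C}.Nonempty := by
    rw [frame_ind_iff] at h
    push Not at h
    obtain ⟨C, hC, hn, hg⟩ := h
    exact ⟨C, hC, hn, hg⟩
  have hfin : {C | C ⊆ X ∧ C.Nonempty ∧ ¬ frame_Good G C}.Finite :=
    hX.finite_subsets.subset (fun C hC => hC.1)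
  obtain ⟨C, hC, hmin⟩ := Set.exists_min_image _ Set.ncard hfin hne
  refine ⟨C, hC.1, hX.subset hC.1, hC.2.1, hC.2.2, ?_⟩
  intro Y hY hYC hYn
  by_contra hg
  have h1 := hmin Y ⟨hY.trans hC.1, hYn, hg⟩
  exact hYC (Set.eq_of_subset_of_ncard_le hY h1 (hX.subset hC.1))

omit [Group H] in
theorem frame_vs_inter (G : GGraph V H) (X Y : Set ℕ) :
    G.vs (X ∩ Y) ⊆ G.vs X ∩ G.vs Y :=
  Set.subset_inter (G.vs_mono Set.inter_subset_left) (G.vs_mono Set.inter_subset_right)

theorem frame_elim (G : GGraph V H) {C D : Set ℕ} (hC : frame_Circ G C)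
    (hD : frame_Circ G D) (hne : C ≠ D) {e : ℕ} (heC : e ∈ C) (heD : e ∈ D) :
    ¬ frame_Good G ((C ∪ D) \ {e}) := by
  classical
  obtain ⟨hCf, hCn, hCv, hCm⟩ := hC
  obtain ⟨hDf, hDn, hDv, hDm⟩ := hD
  intro hU
  have hIn : (C ∩ D).Nonempty := ⟨e, heC, heD⟩
  have hIC : C ∩ D ≠ C := by
    intro h
    have h1 : C ⊆ D := by rw [← h]; exact Set.inter_subset_right
    exact hCv (hDm C h1 hne hCn)
  have hIg : frame_Good G (C ∩ D) := hCm _ Set.inter_subset_left hIC hIn
  have hUf : (C ∪ D).Finite := hCf.union hDf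
  have k1 : (C ∪ D).ncard + (C ∩ D).ncard = C.ncard + D.ncard :=
    Set.ncard_union_add_ncard_inter C D hCf hDf
  have k2 : (G.vs (C ∪ D)).ncard + (G.vs C ∩ G.vs D).ncard =
      (G.vs C).ncard + (G.vs D).ncard := by
    rw [G.vs_union]
    exact Set.ncard_union_add_ncard_inter _ _ (G.vs_finite hCf) (G.vs_finite hDf)
  have hmf : (G.vs C ∩ G.vs D).Finite := (G.vs_finite hCf).inter_of_left _
  have k3 : (G.vs (C ∩ D)).ncard ≤ (G.vs C ∩ G.vs D).ncard :=
    Set.ncard_le_ncard (frame_vs_inter G C D) hmf
  have k4 : ((C ∪ D) \ {e}).ncard + 1 = (C ∪ D).ncard :=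
    Set.ncard_sdiff_singleton_add_one (Or.inl heC) hUf
  have k5 : (G.vs ((C ∪ D) \ {e})).ncard ≤ (G.vs (C ∪ D)).ncard :=
    Set.ncard_le_ncard (G.vs_mono Set.sdiff_subset) (G.vs_finite hUf)
  have hU1 := hU.1
  have hI1 := hIg.1
  have vC : (G.vs C).ncard + 1 ≤ C.ncard ∨ (G.Bal C ∧ (G.vs C).ncard ≤ C.ncard) := by
    by_contra hcon
    push Not at hcon
    apply hCv
    refine ⟨by omega, fun hb => ?_⟩
    have := hcon.2 hb
    omega
  have vD : (G.vs D).ncard + 1 ≤ D.ncard ∨ (G.Bal D ∧ (G.vs D).ncard ≤ D.ncard) := by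
    by_contra hcon
    push Not at hcon
    apply hDv
    refine ⟨by omega, fun hb => ?_⟩
    have := hcon.2 hb
    omega
  rcases vC with vC | ⟨bC, vC⟩
  · rcases vD with vD | ⟨bD, vD⟩
    · omega
    · have := hIg.2 (bD.mono Set.inter_subset_right)
      omega
  · have hIb : G.Bal (C ∩ D) := bC.mono Set.inter_subset_left
    have hI2 := hIg.2 hIb
    rcases vD with vD | ⟨bD, vD⟩
    · omega
    · by_cases hcase : (C ∩ D).ncard + 2 ≤ (G.vs C ∩ G.vs D).ncard
      · omega
      · have hvs : G.vs (C ∩ D) = G.vs C ∩ G.vs D :=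
          Set.eq_of_subset_of_ncard_le (frame_vs_inter G C D) (by omega) hmf
        have hUb : G.Bal (C ∪ D) := by
          obtain ⟨φ, hφ⟩ := bC
          obtain ⟨χ, hχ⟩ := bD
          have hδ : ∀ x ∈ C ∩ D, φ (G.hd x) * (χ (G.hd x))⁻¹ =
              φ (G.tl x) * (χ (G.tl x))⁻¹ := by
            intro x hx
            have h1 := hφ x hx.1
            have h2 := hχ x hx.2
            have h3 : φ (G.hd x) = φ (G.tl x) * G.γ x := by rw [h1]; group
            have h4 : χ (G.hd x) = χ (G.tl x) * G.γ x := by rw [h2]; group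
            rw [h3, h4]; group
          set h := φ (G.tl e) * (χ (G.tl e))⁻¹ with hh
          have hall : ∀ x ∈ C ∩ D, φ (G.tl x) * (χ (G.tl x))⁻¹ = h := by
            by_contra hcon
            push Not at hcon
            obtain ⟨x, hx, hxh⟩ := hcon
            set X1 := {y | y ∈ C ∩ D ∧ φ (G.tl y) * (χ (G.tl y))⁻¹ = h} with hX1
            set X2 := {y | y ∈ C ∩ D ∧ φ (G.tl y) * (χ (G.tl y))⁻¹ ≠ h} with hX2
            have s1 : X1 ⊆ C ∩ D := fun y hy => hy.1
            have s2 : X2 ⊆ C ∩ D := fun y hy => hy.1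
            have hIf : (C ∩ D).Finite := hCf.inter_of_left _
            have n1 : X1.Nonempty := ⟨e, ⟨heC, heD⟩, rfl⟩
            have n2 : X2.Nonempty := ⟨x, hx, hxh⟩
            have hun : X1 ∪ X2 = C ∩ D := by
              ext y
              constructor
              · rintro (hy | hy)
                · exact hy.1
                · exact hy.1
              · intro hy
                by_cases hc : φ (G.tl y) * (χ (G.tl y))⁻¹ = h
                · exact Or.inl ⟨hy, hc⟩
                · exact Or.inr ⟨hy, hc⟩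
            have hdj : X1 ∩ X2 = ∅ := by
              ext y
              constructor
              · rintro ⟨h1, h2⟩; exact absurd h1.2 h2.2
              · intro hy; exact hy.elim
            have g1 : frame_Good G X1 := by
              refine hCm X1 (s1.trans Set.inter_subset_left) ?_ n1
              intro hc
              have : x ∈ X1 := by rw [hc]; exact hx.1
              exact hxh this.2
            have g2 : frame_Good G X2 := by
              refine hCm X2 (s2.trans Set.inter_subset_left) ?_ n2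
              intro hc
              have : e ∈ X2 := by rw [hc]; exact heC
              exact this.2 rfl
            have b1 := g1.2 (hIb.mono s1)
            have b2 := g2.2 (hIb.mono s2)
            have c1 : (X1 ∪ X2).ncard + (X1 ∩ X2).ncard = X1.ncard + X2.ncard :=
              Set.ncard_union_add_ncard_inter X1 X2 (hIf.subset s1) (hIf.subset s2)
            have c2 : (G.vs (X1 ∪ X2)).ncard + (G.vs X1 ∩ G.vs X2).ncard =
                (G.vs X1).ncard + (G.vs X2).ncard := by
              rw [G.vs_union]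
              exact Set.ncard_union_add_ncard_inter _ _ (G.vs_finite (hIf.subset s1))
                (G.vs_finite (hIf.subset s2))
            have c3 : G.vs X1 ∩ G.vs X2 = ∅ := by
              ext v
              constructor
              · rintro ⟨h1, h2⟩
                obtain ⟨y, hy, b, rfl⟩ := GGraph.mem_vs.mp h1
                obtain ⟨z, hz, b', hzy⟩ := GGraph.mem_vs.mp h2
                have e1 : φ (G.en b y) * (χ (G.en b y))⁻¹ = h := by
                  cases b
                  · exact hy.2
                  · exact (hδ y hy.1).trans hy.2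
                have e2 : φ (G.en b' z) * (χ (G.en b' z))⁻¹ ≠ h := by
                  cases b'
                  · exact hz.2
                  · intro hc
                    exact hz.2 ((hδ z hz.1).symm.trans hc)
                rw [hzy] at e2
                exact absurd e1 e2
              · intro hv; exact hv.elim
            rw [hun, hdj, Set.ncard_empty] at c1
            rw [hun, c3, Set.ncard_empty] at c2
            omega
          have hvv : ∀ v ∈ G.vs C ∩ G.vs D, φ v = h * χ v := by
            intro v hv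
            rw [← hvs] at hv
            obtain ⟨y, hy, b, rfl⟩ := GGraph.mem_vs.mp hv
            have e1 : φ (G.en b y) * (χ (G.en b y))⁻¹ = h := by
              cases b
              · exact hall y hy
              · exact (hδ y hy).trans (hall y hy)
            rw [← e1]; group
          refine ⟨fun v => if v ∈ G.vs C then φ v else h * χ v, ?_⟩
          intro x hx
          have hDval : ∀ v ∈ G.vs D, (if v ∈ G.vs C then φ v else h * χ v) = h * χ v := by
            intro v hv
            by_cases hvC : v ∈ G.vs C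
            · rw [if_pos hvC]; exact hvv v ⟨hvC, hv⟩
            · rw [if_neg hvC]
          rcases hx with hx | hx
          · have t1 : G.tl x ∈ G.vs C := G.en_mem_vs hx false
            have t2 : G.hd x ∈ G.vs C := G.en_mem_vs hx true
            simp only [if_pos t1, if_pos t2]
            exact hφ x hx
          · have t1 := hDval _ (G.en_mem_vs hx false)
            have t2 := hDval _ (G.en_mem_vs hx true)
            rw [GGraph.en_false] at t1
            rw [GGraph.en_true] at t2
            simp only [t1, t2]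
            rw [hχ x hx]; group
        have hU2 := hU.2 (hUb.mono Set.sdiff_subset)
        omega

theorem frame_aug (G : GGraph V H) {I J : Set ℕ} (hIf : I.Finite) (hJf : J.Finite)
    (hI : G.Ind I) (hJ : G.Ind J) (hIJ : I.ncard < J.ncard) :
    ∃ e ∈ J, e ∉ I ∧ G.Ind (insert e I) := by
  classical
  by_contra hcon
  push Not at hcon
  -- the candidates
  have hUf : (I ∪ J).Finite := hIf.union hJf
  set 𝒦 : Set (Set ℕ) := {K | K ⊆ I ∪ J ∧ G.Ind K ∧ I.ncard < K.ncard} with h𝒦
  have hne : 𝒦.Nonempty := ⟨J, Set.subset_union_right, hJ, hIJ⟩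
  have hfin : 𝒦.Finite := hUf.finite_subsets.subset (fun K hK => hK.1)
  obtain ⟨K, ⟨hKU, hK, hIK⟩, hmin⟩ := Set.exists_min_image 𝒦 (fun K => (I \ K).ncard) hfin hne
  have hKf : K.Finite := hUf.subset hKU
  have hKI : (K \ I).Nonempty := by
    by_contra h
    rw [Set.not_nonempty_iff_eq_empty, Set.sdiff_eq_empty] at h
    have := Set.ncard_le_ncard h hIf
    omega
  by_cases hsub : I ⊆ K
  · obtain ⟨x, hxK, hxI⟩ := hKI
    have hxJ : x ∈ J := by
      rcases hKU hxK with h | h
      · exact absurd h hxI
      · exact h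
    exact hcon x hxJ hxI (hK.mono (Set.insert_subset hxK hsub))
  obtain ⟨e, heI, heK⟩ : ∃ e ∈ I, e ∉ K := by
    rw [Set.not_subset] at hsub
    exact hsub
  -- the circuits
  have hcirc : ∀ f ∈ K \ I, ∃ C, frame_Circ G C ∧ C ⊆ insert e K ∧ f ∉ C ∧ e ∈ C := by
    intro f hf
    have hef : e ≠ f := by rintro rfl; exact heK hf.1
    have hTf : ((insert e K) \ {f}).Finite := (hKf.insert e).sdiff
    have hcard : ((insert e K) \ {f}).ncard = K.ncard := by
      have h1 := Set.ncard_sdiff_singleton_add_one (s := insert e K) (a := f)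
        (Set.mem_insert_of_mem e hf.1) (hKf.insert e)
      have h2 := Set.ncard_insert_of_notMem heK hKf
      omega
    have hlt : (I \ ((insert e K) \ {f})).ncard < (I \ K).ncard := by
      refine Set.ncard_lt_ncard ?_ hIf.sdiff
      refine ⟨?_, ?_⟩
      · rintro x ⟨hx1, hx2⟩
        refine ⟨hx1, fun hx3 => hx2 ⟨Set.mem_insert_of_mem e hx3, ?_⟩⟩
        rintro rfl
        exact hf.2 hx1
      · intro h
        have h1 : e ∈ I \ ((insert e K) \ {f}) := h ⟨heI, heK⟩
        exact h1.2 ⟨Set.mem_insert e K, hef⟩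
    have hnot : ¬ G.Ind ((insert e K) \ {f}) := by
      intro hind
      have h1 : ((insert e K) \ {f}) ∈ 𝒦 := by
        refine ⟨?_, hind, by omega⟩
        rintro x ⟨hx | hx, _⟩
        · rw [hx]; exact Or.inl heI
        · exact hKU hx
      have := hmin _ h1
      omega
    obtain ⟨C, hC, hCc⟩ := frame_exists_circ G hTf hnot
    refine ⟨C, hCc, hC.trans Set.sdiff_subset, fun h => (hC h).2 rfl, ?_⟩
    by_contra he
    have hCK : C ⊆ K := by
      intro x hx
      rcases (hC hx).1 with h | h
      · rw [h] at hx; exact absurd hx he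
      · exact h
    exact hCc.2.2.1 (hK C hCK hCc.2.1)
  obtain ⟨f, hf⟩ := hKI
  obtain ⟨C, hC, hCs, hfC, heC⟩ := hcirc f hf
  have hmeet : ((K \ I) ∩ C).Nonempty := by
    by_contra h
    rw [Set.not_nonempty_iff_eq_empty] at h
    have hCI : C ⊆ I := by
      intro x hx
      rcases hCs hx with hx' | hx'
      · rw [hx']; exact heI
      · by_contra hxI
        have : x ∈ (K \ I) ∩ C := ⟨⟨hx', hxI⟩, hx⟩
        rw [h] at this
        exact this
    exact hC.2.2.1 (hI C hCI hC.2.1)
  obtain ⟨g, hgK, hgC⟩ := hmeet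
  obtain ⟨D, hD, hDs, hgD, heD⟩ := hcirc g hgK
  have hCD : C ≠ D := by rintro rfl; exact hgD hgC
  have hbad := frame_elim G hC hD hCD heC heD
  refine hbad (hK _ ?_ ?_)
  · rintro x ⟨hx | hx, hxe⟩
    · rcases hCs hx with h | h
      · exact absurd h hxe
      · exact h
    · rcases hDs hx with h | h
      · exact absurd h hxe
      · exact h
  · refine ⟨g, Or.inl hgC, ?_⟩
    rintro rfl
    exact heK hgK.1

/-- Every gain graph with finitely many edges has a frame matroid. -/
theorem exists_frame (G : GGraph V H) {E : Set ℕ} (hE : E.Finite) :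
    ∃ M : Matroid ℕ, M.E = E ∧ G.Rep M := by
  classical
  let M : IndepMatroid ℕ := IndepMatroid.ofFinite hE (fun I => I ⊆ E ∧ G.Ind I)
    ⟨Set.empty_subset _, by
      intro X hX hXn
      rw [Set.subset_empty_iff] at hX
      rw [hX] at hXn
      exact absurd hXn Set.not_nonempty_empty⟩
    (fun I J hJ hIJ => ⟨hIJ.trans hJ.1, hJ.2.mono hIJ⟩)
    (fun I J hI hJ hIJ => by
      obtain ⟨e, he, heI, hind⟩ := frame_aug G (hE.subset hI.1) (hE.subset hJ.1) hI.2 hJ.2 hIJ
      exact ⟨e, he, heI, Set.insert_subset (hJ.1 he) hI.1, hind⟩)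
    (fun I hI => hI.1)
  refine ⟨M.matroid, rfl, hE, ?_⟩
  intro I hI
  constructor
  · intro h; exact h.2
  · intro h; exact ⟨hI, h⟩

end Pool.Agent.Helper25.GG
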