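import Pool.Agent.Helper22.GG.Circ
import Pool.Agent.Helper4.GG.Sep

/-! # GG-6: many pieces in a matroid whose circuits are bounded -/

namespace Pool.Agent.Helper25.GG

/-- components of elements of the ground set lie in the ground set -/
theorem many_comp_sub {M : Matroid ℕ} {x : ℕ} (hx : x ∈ M.E) : comp M x ⊆ M.E := by
  rintro y (rfl | ⟨C, hC, _, hy⟩)
  · exact hx
  · exact hC.subset_ground hy

theorem many_comp_symm {M : Matroid ℕ} {x y : ℕ} (h : y ∈ comp M x) : x ∈ comp M y := by
  rcases h with rfl | ⟨C, hC, hx, hy⟩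
  · exact Or.inl rfl
  · exact Or.inr ⟨C, hC, hy, hx⟩

theorem many_comp_trans {M : Matroid ℕ} (hM : M.E.Finite) {x y z : ℕ} (h : y ∈ comp M x)
    (h' : z ∈ comp M y) : z ∈ comp M x := by
  rcases h' with rfl | ⟨C, hC, hy, hz⟩
  · exact h
  · exact comp_sepr hM x C hC ⟨y, hy, h⟩ hz

/-- choosing pairwise disjoint components -/
theorem many_comps {M : Matroid ℕ} (hM : M.E.Finite) (B : ℕ) (hB : 0 < B)
    (hc : ∀ x ∈ M.E, (comp M x).ncard ≤ B) : ∀ t : ℕ, t * B ≤ M.E.ncard →
    ∃ x : ℕ → ℕ, (∀ i < t, x i ∈ M.E) ∧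
      ∀ i < t, ∀ j < t, i ≠ j → Disjoint (comp M (x i)) (comp M (x j)) := by
  intro t
  induction t with
  | zero => intro _; exact ⟨fun _ => 0, fun i hi => absurd hi (by omega),
      fun i hi => absurd hi (by omega)⟩
  | succ t ih =>
    intro ht
    have ht' : t * B + B ≤ M.E.ncard := by rw [← Nat.succ_mul]; exact ht
    obtain ⟨x, hx, hd⟩ := ih (by omega)
    have hU : (⋃ i ∈ Finset.range t, comp M (x i)).ncard ≤ t * B := by
      have h1 : ∀ s : Finset ℕ, (∀ i ∈ s, x i ∈ M.E) →
          (⋃ i ∈ s, comp M (x i)).ncard ≤ s.card * B := by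
        intro s
        induction s using Finset.induction_on with
        | empty => intro _; simp
        | insert a s ha ih =>
          intro h
          rw [Finset.set_biUnion_insert, Finset.card_insert_of_notMem ha, Nat.succ_mul]
          refine (Set.ncard_union_le _ _).trans ?_
          have h2 := ih (fun i hi => h i (Finset.mem_insert_of_mem hi))
          have h3 := hc _ (h a (Finset.mem_insert_self a s))
          omega
      have := h1 (Finset.range t) (fun i hi => hx i (Finset.mem_range.1 hi))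
      rwa [Finset.card_range] at this
    have hUE : (⋃ i ∈ Finset.range t, comp M (x i)) ⊆ M.E := by
      intro z hz
      rw [Set.mem_iUnion₂] at hz
      obtain ⟨i, hi, hz⟩ := hz
      exact many_comp_sub (hx i (Finset.mem_range.1 hi)) hz
    obtain ⟨y, hyE, hyU⟩ : ∃ y ∈ M.E, y ∉ ⋃ i ∈ Finset.range t, comp M (x i) := by
      by_contra hcon
      push Not at hcon
      have := Set.ncard_le_ncard (s := M.E) (fun z hz => hcon z hz) (hM.subset hUE)
      omega
    have hy : ∀ i < t, Disjoint (comp M (x i)) (comp M y) := by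
      intro i hi
      rw [Set.disjoint_left]
      intro z hz1 hz2
      apply hyU
      rw [Set.mem_iUnion₂]
      exact ⟨i, Finset.mem_range.2 hi, many_comp_trans hM hz1 (many_comp_symm hz2)⟩
    refine ⟨fun i => if i < t then x i else y, ?_, ?_⟩
    · intro i hi
      by_cases h : i < t
      · simp only [h, if_true]; exact hx i h
      · simp only [h, if_false]; exact hyE
    · intro i hi j hj hij
      by_cases h : i < t
      · by_cases h' : j < t
        · simp only [h, h', if_true]; exact hd i h j h' hij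
        · simp only [h, h', if_true, if_false]; exact hy i h
      · by_cases h' : j < t
        · simp only [h, h', if_true, if_false]; exact (hy j h').symm
        · omega

theorem pieces_exist (k : ℕ) : ∀ τ : ℕ → ℕ → ℕ, ∃ n₀ : ℕ, ∀ M : Matroid ℕ, M.E.Finite →
    CircLe M k → n₀ ≤ M.E.ncard →
    ∃ a b : ℕ, ∃ A ⊆ M.E, A.ncard ≤ a ∧ ∃ K : ℕ → Set ℕ,
      (∀ i < τ a b, K i ⊆ M.E \ A ∧ (K i).Nonempty ∧ (K i).ncard ≤ b ∧
        Sepr (M.contract A) (K i)) ∧
      ∀ i < τ a b, ∀ i' < τ a b, i ≠ i' → Disjoint (K i) (K i') := by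
  -- the case of small components
  have small : ∀ (τ : ℕ → ℕ → ℕ) (B : ℕ), 0 < B → ∀ M : Matroid ℕ, M.E.Finite →
      τ 0 B * B ≤ M.E.ncard → (∀ x ∈ M.E, (comp M x).ncard ≤ B) →
      ∃ a b : ℕ, ∃ A ⊆ M.E, A.ncard ≤ a ∧ ∃ K : ℕ → Set ℕ,
      (∀ i < τ a b, K i ⊆ M.E \ A ∧ (K i).Nonempty ∧ (K i).ncard ≤ b ∧
        Sepr (M.contract A) (K i)) ∧
      ∀ i < τ a b, ∀ i' < τ a b, i ≠ i' → Disjoint (K i) (K i') := by
    intro τ B hB M hM hcard hsm
    obtain ⟨x, hx, hd⟩ := many_comps hM B hB hsm (τ 0 B) hcard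
    refine ⟨0, B, ∅, Set.empty_subset _, by simp, fun i => comp M (x i), ?_, hd⟩
    intro i hi
    refine ⟨?_, ⟨x i, Or.inl rfl⟩, hsm _ (hx i hi), ?_⟩
    · rw [Set.sdiff_empty]; exact many_comp_sub (hx i hi)
    · rw [Matroid.contract_empty]; exact comp_sepr hM _
  induction k with
  | zero =>
    intro τ
    refine ⟨τ 0 1 * 1, fun M hM hc hcard => ?_⟩
    refine small τ 1 one_pos M hM hcard ?_
    intro x _
    have : comp M x ⊆ {x} := by
      rintro y (rfl | ⟨C, hC, hx, _⟩)
      · rfl
      · exfalso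
        have h1 := hc C hC
        have h2 : 0 < C.ncard := (Set.ncard_pos (hM.subset hC.subset_ground)).2 ⟨x, hx⟩
        omega
    calc (comp M x).ncard ≤ ({x} : Set ℕ).ncard := Set.ncard_le_ncard this
      _ = 1 := Set.ncard_singleton x
  | succ k ih =>
    intro τ
    obtain ⟨N', hN'⟩ := ih (fun a b => τ (a + k + 1) b)
    set B := N' + k + 2 with hB
    refine ⟨τ 0 B * B, fun M hM hc hcard => ?_⟩
    by_cases hsm : ∀ x ∈ M.E, (comp M x).ncard ≤ B
    · exact small τ B (by omega) M hM hcard hsm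
    push Not at hsm
    obtain ⟨x, hxE, hxB⟩ := hsm
    have hLE : comp M x ⊆ M.E := many_comp_sub hxE
    have hLf : (comp M x).Finite := hM.subset hLE
    -- a circuit in the component
    obtain ⟨C0, hC0, hC0x⟩ : ∃ C, M.IsCircuit C ∧ C ⊆ comp M x := by
      obtain ⟨y, hy, hyx⟩ : ∃ y ∈ comp M x, y ≠ x := by
        by_contra hcon
        push Not at hcon
        have : (comp M x).ncard ≤ ({x} : Set ℕ).ncard :=
          Set.ncard_le_ncard (fun z hz => hcon z hz)
        rw [Set.ncard_singleton] at this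
        omega
      rcases hy with rfl | ⟨C, hC, hxC, hyC⟩
      · exact absurd rfl hyx
      · exact ⟨C, hC, comp_sepr hM x C hC ⟨x, hxC, Or.inl rfl⟩⟩
    -- a circuit in the component of maximal size
    obtain ⟨C, ⟨hC, hCx⟩, hmax⟩ : ∃ C, (M.IsCircuit C ∧ C ⊆ comp M x) ∧
        ∀ X, M.IsCircuit X → X ⊆ comp M x → X.ncard ≤ C.ncard := by
      have hfin : {C | M.IsCircuit C ∧ C ⊆ comp M x}.Finite :=
        hLf.finite_subsets.subset (fun C hC => hC.2)
      obtain ⟨C, hC, hmax⟩ := Set.exists_max_image _ Set.ncard hfin ⟨C0, hC0, hC0x⟩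
      exact ⟨C, hC, fun X hX hXx => hmax X ⟨hX, hXx⟩⟩
    have hCk : C.ncard ≤ k + 1 := hc C hC
    set M' := (M.restrict (comp M x)).contract C with hM'
    have hM'E : M'.E = comp M x \ C := rfl
    have hM'f : M'.E.Finite := by rw [hM'E]; exact hLf.sdiff
    have hM'circ : CircLe M' k := by
      intro D hD
      have h1 : M' = (M.contract C).restrict (comp M x \ C) := by
        rw [hM', Matroid.restrict_contract_eq_contract_restrict _ hCx]
      have h2 : comp M x \ C ⊆ (M.contract C).E := by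
        rw [Matroid.contract_ground]
        exact Set.sdiff_subset_sdiff_left hLE
      rw [h1, Matroid.restrict_isCircuit_iff h2] at hD
      have := drop hM hC hCx hmax hD.1 (hD.2.trans Set.sdiff_subset)
      omega
    have hM'card : N' ≤ M'.E.ncard := by
      rw [hM'E, Set.ncard_sdiff hCx (hLf.subset hCx)]
      omega
    obtain ⟨a, b, A, hA, hAa, K, hK, hKd⟩ := hN' M' hM'f hM'circ hM'card
    rw [hM'E] at hA
    have hAL : A ⊆ comp M x := hA.trans Set.sdiff_subset
    refine ⟨a + k + 1, b, C ∪ A, Set.union_subset (hCx.trans hLE) (hAL.trans hLE), ?_, K, ?_,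
      hKd⟩
    · refine (Set.ncard_union_le _ _).trans ?_
      omega
    · intro i hi
      obtain ⟨h1, h2, h3, h4⟩ := hK i hi
      have h1' : K i ⊆ comp M x \ (C ∪ A) := by
        intro z hz
        have := h1 hz
        rw [hM'E] at this
        exact ⟨this.1.1, fun h => h.elim this.1.2 this.2⟩
      refine ⟨h1'.trans (Set.sdiff_subset_sdiff_left hLE), h2, h3, ?_⟩
      refine Sepr.of_restrict (comp_sepr hM x) hLE (Set.union_subset hCx hAL) h1' ?_
      rw [hM', Matroid.contract_contract] at h4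
      exact h4

end Pool.Agent.Helper25.GG
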